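import Pool.Agent.N136.NSP.Ext1

/-!
Project NSP: from a solution to the system of the Fourier coefficients (packets)
(helper136, after helper977).
-/

set_option linter.unusedVariables false

open MeasureTheory Set Filter Topology
open scoped ContDiff ComplexConjugate

namespace Pool.Agent.N136.NSP

open H459R3.NS Pool.Agent.N977.Q Pool.Agent.N977.S Pool.Agent.N977.P
open Pool.Agent.N977.K (SolK cmp)

variable {J : ℕ → ℕ} {G : Fin 2 → ℕ → K3 → ℝ} {α μ : ℕ → ℝ} {ν T T₂ ε E p δ c : ℝ}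
  {u : ℝ → V → V} {q : ℝ → V → ℝ}

/-- the rescaled amplitudes -/
noncomputable def xp (G : Fin 2 → ℕ → K3 → ℝ) (ε T : ℝ) (u : ℝ → V → V) (e : Fin 2) (n : ℕ)
    (t : ℝ) : ℝ := am (G e n) (u (cl T t)) / ε

theorem xp_eq {t : ℝ} (ht : t ∈ Icc 0 T) (e : Fin 2) (n : ℕ) :
    xp G ε T u e n t = am (G e n) (u t) / ε := by
  unfold xp; rw [cl_eq ht]

theorem xp_cont {K : (V → V) → (V → V) → V → V} (P : Pk J G) (h : SolK ν T₂ K u q) (hT0 : 0 ≤ T)
    (hT : T < T₂) (e : Fin 2) (n : ℕ) : Continuous (xp G ε T u e n) := by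
  unfold xp
  have : Continuous fun t => am (G e n) (u (cl T t)) :=
    (am_cont h (P.fin e n)).comp_continuous (cl_cont T) fun t =>
      ⟨(cl_mem hT0 t).1, (cl_mem hT0 t).2.trans_lt hT⟩
  exact this.div_const ε

theorem xp_deriv {t : ℝ} (ht : t ∈ Ioo 0 T) (e : Fin 2) (n : ℕ) {A : ℝ}
    (h : HasDerivAt (fun s => am (G e n) (u s)) A t) :
    HasDerivAt (xp G ε T u e n) (A / ε) t := by
  have h1 : HasDerivAt (fun s => am (G e n) (u (cl T s))) A t :=
    h.congr_of_eventuallyEq (cl_ev ht (f := fun s => am (G e n) (u s)))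
  exact h1.div_const ε

theorem gfp_eq (hε : ε ≠ 0) {t : ℝ} (ht : t ∈ Icc 0 T) (c : ℕ → ℝ) (n : ℕ) :
    gf (fun n => ε * c n) (xp G ε T u 1) n t
      = sh (fun n => c n * (am (G 1 n) (u t) * am (G 1 n) (u t))) n / ε := by
  cases n with
  | zero => simp [gf, sh]
  | succ n =>
    simp only [gf, sh]
    rw [xp_eq ht]
    field_simp

/-- the defect of the first equation -/
noncomputable def f0 (α d : ℕ → ℝ) (x y : ℕ → ℝ → ℝ) (n : ℕ) (t : ℝ) : ℝ :=
  deriv (x n) t + d n * x n t - gf α y n t + α n * y n t ^ 2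

/-- the defect of the second equation -/
noncomputable def f1 (α μ d : ℕ → ℝ) (x y : ℕ → ℝ → ℝ) (n : ℕ) (t : ℝ) : ℝ :=
  deriv (y n) t + d n * y n t - α n * y n t * (x n t - x (n + 1) t) - gf μ y n t
    + μ n * y n t * y (n + 1) t

/-- the bound for the noise, rescaled -/
theorem rho_ge (P : Pk J G) (hν : 0 ≤ ν) (hε : 0 < ε) (hε1 : ε ≤ 1)
    (hc : c = (2 * Real.pi) ^ 2 * ν) (v : V → V) (e : Fin 2) (n : ℕ) :
    rhu ν J G v e n / ε ≤ rho c J G (fun l => un v l / ε) (fun l => bnp G v l / ε) e n := by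
  have hf := P.fin e n
  unfold rhu rho
  rw [tsum_g hf (fun k hk => by rw [hk, abs_zero, zero_mul]),
    tsum_g hf (fun k hk => by rw [hk, abs_zero, zero_mul]), Finset.sum_div]
  refine Finset.sum_le_sum fun l _ => ?_
  rw [mul_div_assoc]
  refine mul_le_mul_of_nonneg_left ?_ (abs_nonneg _)
  rw [cv_div]
  have h1 : (0 : ℝ) ≤ cv (un v) (un v) l :=
    cv_nonneg (fun k => un_nonneg v k) (fun k => un_nonneg v k) l
  have h1' : (0 : ℝ) ≤ cv (fun l => un v l) (fun l => un v l) l := h1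
  have e1 : cv (fun l => un v l) (fun l => un v l) l = cv (un v) (un v) l := rfl
  rw [e1]
  set C := cv (un v) (un v) l with hC
  have h2 := len_nonneg l
  have h3 : 2 * Real.pi ≤ 7 := by linarith [Real.pi_lt_d2]
  have h4 : 0 ≤ len l * C := mul_nonneg h2 h1
  have h5 : 2 * Real.pi * len l * C / ε ≤ 7 * len l * (C / ε ^ 2) := by
    rw [div_le_iff₀ hε]
    have e2 : 7 * len l * (C / ε ^ 2) * ε = 7 * (len l * C) / ε := by field_simp
    rw [e2, le_div_iff₀ hε]
    have h6 : 2 * Real.pi * (len l * C) ≤ 7 * (len l * C) := mul_le_mul_of_nonneg_right h3 h4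
    have h7 : 0 ≤ 2 * Real.pi * (len l * C) := by
      have := Real.pi_pos
      positivity
    calc 2 * Real.pi * len l * C * ε = 2 * Real.pi * (len l * C) * ε := by ring
      _ ≤ 2 * Real.pi * (len l * C) * 1 := mul_le_mul_of_nonneg_left hε1 h7
      _ ≤ _ := by linarith
  have e3 : (7 * (ν * (2 * Real.pi) ^ 2 * (Mn 8 n * ((J n : ℝ) - 1))) * bnp G v l
      + 2 * Real.pi * len l * C) / ε =
      7 * (c * (Mn 8 n * ((J n : ℝ) - 1))) * (bnp G v l / ε) + 2 * Real.pi * len l * C / ε := by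
    rw [hc]
    ring
  rw [e3]
  linarith

theorem f0_le (P : Pk J G) (hop : S_OP) (hA : S_MODA) (hG : Ga 8 α μ)
    (h : SolK ν T₂ (KP G α μ) u q) (hν : 0 ≤ ν) (hT : T < T₂) (hε : 0 < ε) (hε1 : ε ≤ 1)
    (hc : c = (2 * Real.pi) ^ 2 * ν) {t : ℝ} (ht : t ∈ Ioo 0 T) (n : ℕ) :
    DifferentiableAt ℝ (xp G ε T u 0 n) t ∧
    |f0 (fun n => ε * α n) (fun n => c * ∑' k, G 0 n k ^ 2 * len k ^ 2) (xp G ε T u 0)
      (xp G ε T u 1) n t| ≤ rho c J G (fun l => un (u t) l / ε) (fun l => bnp G (u t) l / ε) 0 n := by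
  have htT : t ∈ Icc 0 T := Ioo_subset_Icc_self ht
  obtain ⟨B, hB, hd⟩ := hA hop J G α μ P hG ν T₂ u q hν h t ⟨ht.1, ht.2.trans hT⟩ 0 n
  rw [if_pos rfl] at hd
  have h1 := xp_deriv (ε := ε) ht 0 n hd
  refine ⟨h1.differentiableAt, ?_⟩
  have e1 : f0 (fun n => ε * α n) (fun n => c * ∑' k, G 0 n k ^ 2 * len k ^ 2) (xp G ε T u 0)
      (xp G ε T u 1) n t = B / ε := by
    unfold f0
    rw [h1.deriv, gfp_eq hε.ne' htT, xp_eq htT, xp_eq htT]
    unfold cXp
    rw [hc]
    field_simp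
    ring
  rw [e1, abs_div, abs_of_pos hε]
  exact (div_le_div_of_nonneg_right hB hε.le).trans (rho_ge P hν hε hε1 hc (u t) 0 n)

theorem f1_le (P : Pk J G) (hop : S_OP) (hA : S_MODA) (hG : Ga 8 α μ)
    (h : SolK ν T₂ (KP G α μ) u q) (hν : 0 ≤ ν) (hT : T < T₂) (hε : 0 < ε) (hε1 : ε ≤ 1)
    (hc : c = (2 * Real.pi) ^ 2 * ν) {t : ℝ} (ht : t ∈ Ioo 0 T) (n : ℕ) :
    DifferentiableAt ℝ (xp G ε T u 1 n) t ∧
    |f1 (fun n => ε * α n) (fun n => ε * μ n) (fun n => c * ∑' k, G 1 n k ^ 2 * len k ^ 2)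
      (xp G ε T u 0) (xp G ε T u 1) n t| ≤
      rho c J G (fun l => un (u t) l / ε) (fun l => bnp G (u t) l / ε) 1 n := by
  have htT : t ∈ Icc 0 T := Ioo_subset_Icc_self ht
  obtain ⟨B, hB, hd⟩ := hA hop J G α μ P hG ν T₂ u q hν h t ⟨ht.1, ht.2.trans hT⟩ 1 n
  rw [if_neg (by decide)] at hd
  have h1 := xp_deriv (ε := ε) ht 1 n hd
  refine ⟨h1.differentiableAt, ?_⟩
  have e1 : f1 (fun n => ε * α n) (fun n => ε * μ n)
      (fun n => c * ∑' k, G 1 n k ^ 2 * len k ^ 2) (xp G ε T u 0) (xp G ε T u 1) n t = B / ε := by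
    unfold f1
    rw [h1.deriv, gfp_eq hε.ne' htT, xp_eq htT, xp_eq htT, xp_eq htT, xp_eq htT]
    unfold cYp
    rw [hc]
    field_simp
    ring
  rw [e1, abs_div, abs_of_pos hε]
  exact (div_le_div_of_nonneg_right hB hε.le).trans (rho_ge P hν hε hε1 hc (u t) 1 n)

theorem sqd {ε : ℝ} (v : K3 → ℝ → ℝ) (k : K3) :
    (fun s => v k s ^ 2 / ε ^ 2) = fun s => (v k s / ε) ^ 2 := by
  funext s; rw [div_pow]

theorem ext : S_EXT := by
  intro hop hMA hMB J G α μ P hG hα0 hμ0 p δ ν T T₂ ε E c u q hK hν hT0 hT hε hε1 hc hE0 hE h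
  have hI : ∀ t ∈ Icc 0 T, t ∈ Ico 0 T₂ := fun t ht => ⟨ht.1, ht.2.trans_lt hT⟩
  have hc0 : 0 < c := by rw [hc]; positivity
  have hEE : ∀ t ∈ Icc 0 T, √(EE 0 (u t)) ≤ ε * E := by
    intro t ht
    exact (Real.sqrt_le_sqrt (EE_leE hν.le hK h (hI t ht))).trans hE
  have haE : ∀ k, ∀ t ∈ Icc 0 T, un (u t) k / ε ≤ E := by
    intro k t ht
    rw [div_le_iff₀ hε, mul_comm]
    refine le_trans ?_ hE
    exact Real.le_sqrt_of_sq_le (un_leE hν.le hK h (hI t ht) k)
  have hxE : ∀ e n, ∀ t ∈ Icc 0 T, |xp G ε T u e n t| ≤ E := by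
    intro e n t ht
    rw [xp_eq ht, abs_div, abs_of_pos hε, div_le_iff₀ hε, mul_comm]
    exact (am_le2 (P.fin e n) (P.sq e n) (sol_spv h (hI t ht))).trans (hEE t ht)
  obtain ⟨C, hC0, hC⟩ := un_decK h hT
  have hxa : ∀ e n, ∀ t ∈ Icc 0 T, |xp G ε T u e n t| ≤ ∑' k, |G e n k| * (un (u t) k / ε) := by
    intro e n t ht
    rw [xp_eq ht, abs_div, abs_of_pos hε]
    have h1 := am_le1 (P.fin e n) (u t)
    have h2 : ∑' k, |G e n k| * (un (u t) k / ε) = (∑' k, |G e n k| * un (u t) k) / ε := by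
      rw [← tsum_div_const]
      exact tsum_congr fun k => by ring
    rw [h2]
    exact div_le_div_of_nonneg_right h1 hε.le
  refine ⟨![f0 (fun n => ε * α n) (fun n => c * ∑' k, G 0 n k ^ 2 * len k ^ 2) (xp G ε T u 0)
      (xp G ε T u 1), f1 (fun n => ε * α n) (fun n => ε * μ n)
      (fun n => c * ∑' k, G 1 n k ^ 2 * len k ^ 2) (xp G ε T u 0) (xp G ε T u 1)], ?_⟩
  change Syp T c E J G _ _ _ _ (xp G ε T u) _ _ _
  refine {
    cs := {
      xc := fun n => xp_cont P h hT0.le hT 0 n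
      yc := fun n => xp_cont P h hT0.le hT 1 n
      xd := fun n t ht => by
        have h1 := (f0_le P hop hMA hG h hν.le hT hε hε1 hc ht n).1.hasDerivAt
        refine h1.congr_deriv ?_
        simp only [Matrix.cons_val_zero]
        unfold f0
        ring
      yd := fun n t ht => by
        have h1 := (f1_le P hop hMA hG h hν.le hT hε hε1 hc ht n).1.hasDerivAt
        refine h1.congr_deriv ?_
        simp only [Matrix.cons_val_one, Matrix.cons_val_zero]
        unfold f1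
        ring
      dec := ?_ }
    c0 := hc0
    E0 := hE0
    d1 := fun n => by
      have h1 := dd_near P hc0.le 0 n
      rw [(qq_sq n).1] at h1
      have e1 : c * (4 * (Mn 8 n : ℝ) ^ 2) = 4 * (c * (Mn 8 n : ℝ) ^ 2) := by ring
      rwa [e1] at h1
    D1 := fun n => by
      have h1 := dd_near P hc0.le 1 n
      rw [(qq_sq n).2] at h1
      have e1 : c * (5 * (Mn 8 n : ℝ) ^ 2) = 5 * (c * (Mn 8 n : ℝ) ^ 2) := by ring
      rwa [e1] at h1
    a0 := fun k t => div_nonneg (un_nonneg _ _) hε.le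
    b0 := fun k t => div_nonneg (bnp_nonneg _ _) hε.le
    ab := fun k hk t _ => by rw [bnp_zero hk]
    ax := fun e n k hk t ht => by
      rw [xp_eq ht, abs_div, abs_of_pos hε, ← mul_div_assoc, ← add_div, ← add_div]
      have h1 := un_bnp P (u t) hk
      exact ⟨div_le_div_of_nonneg_right h1.1 hε.le, div_le_div_of_nonneg_right h1.2 hε.le⟩
    xa := hxa
    xE := hxE
    aE := haE
    dec := ⟨C / ε, by positivity, fun t ht k => by
      rw [← mul_div_assoc]; exact div_le_div_of_nonneg_right (hC t ht k) hε.le⟩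
    ac := fun k => ((un_contK h k).mono hI).div_const ε
    bc := fun k => by
      have h1 := ((bnp_cont P h k).mono hI).div_const (ε ^ 2)
      refine h1.congr fun t _ => ?_
      rw [div_pow]
    bd0 := fun k hk t ht => by
      obtain ⟨B, hB, hd⟩ := (hMB hop J G α μ P hG ν T₂ u q hν.le h t ⟨ht.1, ht.2.trans hT⟩).1 k hk
      refine ⟨B / ε ^ 2, ?_, ?_⟩
      · have h2 := cv_nonneg (fun k => un_nonneg (u t) k) (fun k => un_nonneg (u t) k) k
        have e1 : cv (fun l => un (u t) l / ε) (fun l => un (u t) l / ε) k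
            = cv (un (u t)) (un (u t)) k / ε ^ 2 := cv_div _ _ _
        rw [e1, abs_div, abs_of_pos (by positivity : 0 < ε ^ 2)]
        set C' := cv (un (u t)) (un (u t)) k with hC'
        have h2' : 0 ≤ C' := h2
        have h3 := bnp_nonneg (G := G) (u t) k
        have h4 := len_nonneg k
        have h5 : bnp G (u t) k / ε * (7 * len k * (C' / ε ^ 2))
            = (bnp G (u t) k * (7 * len k * C')) / ε / ε ^ 2 := by field_simp
        rw [h5]
        apply div_le_div_of_nonneg_right _ (by positivity)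
        rw [le_div_iff₀ hε]
        have h6 : |B| ≤ bnp G (u t) k * (7 * len k * C') := by
          refine hB.trans ?_
          have h7 : 0 ≤ bnp G (u t) k * len k * C' := by positivity
          have h8 : 2 * Real.pi ≤ 7 := by linarith [Real.pi_lt_d2]
          calc _ = 2 * Real.pi * (bnp G (u t) k * len k * C') := by ring
            _ ≤ 7 * (bnp G (u t) k * len k * C') := mul_le_mul_of_nonneg_right h8 h7
            _ = _ := by ring
        have h9 : 0 ≤ |B| := abs_nonneg B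
        nlinarith
      · have h1 := hd.div_const (ε ^ 2)
        have e0 : (fun s => bnp G (u s) k ^ 2 / ε ^ 2) = fun s => (bnp G (u s) k / ε) ^ 2 := by
          funext s; rw [div_pow]
        rw [e0] at h1
        refine h1.congr_deriv ?_
        rw [hc]
        field_simp
    bd1 := fun e n k hk t ht => by
      obtain ⟨B, hB, hd⟩ :=
        (hMB hop J G α μ P hG ν T₂ u q hν.le h t ⟨ht.1, ht.2.trans hT⟩).2 e n k hk
      refine ⟨B / ε ^ 2, ?_, ?_⟩
      · have h2 := cv_nonneg (fun k => un_nonneg (u t) k) (fun k => un_nonneg (u t) k) k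
        have e1 : cv (fun l => un (u t) l / ε) (fun l => un (u t) l / ε) k
            = cv (un (u t)) (un (u t)) k / ε ^ 2 := cv_div _ _ _
        have hr := rho_ge P hν.le hε hε1 hc (u t) e n
        have htT : t ∈ Icc 0 T := Ioo_subset_Icc_self ht
        rw [xp_eq htT]
        rw [e1, abs_div, abs_of_pos (by positivity : 0 < ε ^ 2), abs_div, abs_of_pos hε]
        set C' := cv (un (u t)) (un (u t)) k with hC'
        have h2' : 0 ≤ C' := h2
        have h3 := bnp_nonneg (G := G) (u t) k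
        have h4 := len_nonneg k
        set R := rho c J G (fun l => un (u t) l / ε) (fun l => bnp G (u t) l / ε) e n with hR
        set R' := rhu ν J G (u t) e n with hR'
        have h5 : 2 * Real.pi * len k * C' / ε ≤ 7 * len k * (C' / ε ^ 2) := by
          have h3' : 2 * Real.pi ≤ 7 := by linarith [Real.pi_lt_d2]
          have h4' : 0 ≤ len k * C' := mul_nonneg h4 h2'
          rw [div_le_iff₀ hε]
          have e2 : 7 * len k * (C' / ε ^ 2) * ε = 7 * (len k * C') / ε := by field_simp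
          rw [e2, le_div_iff₀ hε]
          have h6 : 2 * Real.pi * (len k * C') ≤ 7 * (len k * C') :=
            mul_le_mul_of_nonneg_right h3' h4'
          have h7 : 0 ≤ 2 * Real.pi * (len k * C') := by
            have := Real.pi_pos
            positivity
          calc 2 * Real.pi * len k * C' * ε = 2 * Real.pi * (len k * C') * ε := by ring
            _ ≤ 2 * Real.pi * (len k * C') * 1 := mul_le_mul_of_nonneg_left hε1 h7
            _ ≤ _ := by linarith
        have h8 : (2 * Real.pi * len k * C' + |G e n k| *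
            (14 * (ν * (2 * Real.pi) ^ 2 * (Mn 8 n * ((J n : ℝ) - 1))) * |am (G e n) (u t)| + R')) / ε
            ≤ 7 * len k * (C' / ε ^ 2) + |G e n k| *
            (14 * (c * (Mn 8 n * ((J n : ℝ) - 1))) * (|am (G e n) (u t)| / ε) + R) := by
          have e3 : (2 * Real.pi * len k * C' + |G e n k| *
            (14 * (ν * (2 * Real.pi) ^ 2 * (Mn 8 n * ((J n : ℝ) - 1))) * |am (G e n) (u t)| + R')) / ε
            = 2 * Real.pi * len k * C' / ε + |G e n k| *
            (14 * (c * (Mn 8 n * ((J n : ℝ) - 1))) * (|am (G e n) (u t)| / ε) + R' / ε) := by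
            rw [hc]
            ring
          rw [e3]
          exact add_le_add h5 (mul_le_mul_of_nonneg_left (by linarith) (abs_nonneg _))
        have h9 := mul_le_mul_of_nonneg_left h8 (div_nonneg h3 hε.le)
        refine le_trans ?_ h9
        have e4 : bnp G (u t) k / ε * ((2 * Real.pi * len k * C' + |G e n k| *
            (14 * (ν * (2 * Real.pi) ^ 2 * (Mn 8 n * ((J n : ℝ) - 1))) * |am (G e n) (u t)| + R')) / ε)
            = bnp G (u t) k * (2 * Real.pi * len k * C' + |G e n k| *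
            (14 * (ν * (2 * Real.pi) ^ 2 * (Mn 8 n * ((J n : ℝ) - 1))) * |am (G e n) (u t)| + R'))
              / ε ^ 2 := by
          field_simp
        rw [e4]
        exact div_le_div_of_nonneg_right hB (by positivity)
      · have h1 := hd.div_const (ε ^ 2)
        have e0 : (fun s => bnp G (u s) k ^ 2 / ε ^ 2) = fun s => (bnp G (u s) k / ε) ^ 2 := by
          funext s; rw [div_pow]
        rw [e0] at h1
        refine h1.congr_deriv ?_
        rw [hc]
        field_simp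
    fb := fun e n t ht => by
      fin_cases e
      · exact (f0_le P hop hMA hG h hν.le hT hε hε1 hc ht n).2
      · exact (f1_le P hop hMA hG h hν.le hT hε hε1 hc ht n).2 }
  -- the decay of the fluxes
  intro η hη
  have hA : ∀ n : ℕ, (n : ℝ) ≤ Mn 8 n := fun n => by
    have h1 := two_pow_le_Mn (N := 8) (by norm_num) n
    have h2 : (n : ℝ) ≤ 2 ^ n := by exact_mod_cast Nat.lt_two_pow_self.le
    linarith
  set D : ℝ := 2 * (768 * C / ε) ^ 2 * E with hD
  have hD0 : 0 ≤ D := by positivity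
  obtain ⟨J₁, hJ⟩ := exists_nat_gt (D / η)
  refine ⟨max J₁ 1, fun n hn t ht => ?_⟩
  have hnJ : (J₁ : ℝ) ≤ n := by exact_mod_cast (le_max_left _ _).trans hn
  have hM1 : (1 : ℝ) ≤ Mn 8 n := one_le_Mn (by norm_num) n
  have hM0 : (0 : ℝ) < Mn 8 n := by linarith
  have hM8 : (8 : ℝ) ≤ Mn 8 n := by
    unfold Mn
    push_cast
    have : (1 : ℝ) ≤ 2 ^ n := one_le_pow₀ (by norm_num)
    linarith
  have hJM : (J n : ℝ) ≤ Mn 8 n := by
    have := P.J2 n
    linarith
  have hy : |xp G ε T u 1 n t| * (Mn 8 n : ℝ) ^ 7 ≤ 768 * C / ε := by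
    have hf := P.fin 1 n
    have h1 := am_le1 hf (u t)
    have h2 : ∑' k, |G 1 n k| * un (u t) k ≤ ∑' k, |G 1 n k| * (256 * C / (Mn 8 n : ℝ) ^ 8) := by
      rw [tsum_g hf (fun k hk => by rw [hk, abs_zero, zero_mul]),
        tsum_g hf (fun k hk => by rw [hk, abs_zero, zero_mul])]
      refine Finset.sum_le_sum fun k hk => mul_le_mul_of_nonneg_left ?_ (abs_nonneg _)
      have h3 := len_ge P (hf.mem_toFinset.1 hk)
      have h4 := len_le_N k
      have h5 : (Mn 8 n : ℝ) ≤ 2 * H459R3.NS.N k := h3.trans h4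
      have h6 := pow_le_pow_left₀ hM0.le h5 8
      have h7 := hC t ht k
      rw [le_div_iff₀ (by positivity)]
      calc un (u t) k * (Mn 8 n : ℝ) ^ 8 ≤ un (u t) k * (2 * (H459R3.NS.N k : ℝ)) ^ 8 :=
            mul_le_mul_of_nonneg_left h6 (un_nonneg _ _)
        _ = 256 * ((H459R3.NS.N k : ℝ) ^ 8 * un (u t) k) := by ring
        _ ≤ 256 * C := by linarith
    rw [tsum_mul_right] at h2
    have h3 := P.l1 1 n
    have h4 : |am (G 1 n) (u t)| ≤ 3 * Mn 8 n * (256 * C / (Mn 8 n : ℝ) ^ 8) := by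
      refine (h1.trans h2).trans (mul_le_mul_of_nonneg_right ?_ (by positivity))
      linarith
    rw [xp_eq ht, abs_div, abs_of_pos hε, div_mul_eq_mul_div]
    apply div_le_div_of_nonneg_right _ hε.le
    calc |am (G 1 n) (u t)| * (Mn 8 n : ℝ) ^ 7
        ≤ 3 * Mn 8 n * (256 * C / (Mn 8 n : ℝ) ^ 8) * (Mn 8 n : ℝ) ^ 7 :=
          mul_le_mul_of_nonneg_right h4 (by positivity)
      _ = 768 * C := by field_simp; ring
  set y := xp G ε T u 1 n t with hyd
  have hysq : y ^ 2 * (Mn 8 n : ℝ) ^ 14 ≤ (768 * C / ε) ^ 2 := by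
    have h1 := pow_le_pow_left₀ (by positivity) hy 2
    calc y ^ 2 * (Mn 8 n : ℝ) ^ 14 = (|y| * (Mn 8 n : ℝ) ^ 7) ^ 2 := by
          rw [mul_pow, sq_abs]; ring
      _ ≤ _ := h1
  have hα1 : ε * α n ≤ (Mn 8 n : ℝ) ^ 3 := by
    have h1 := hG.a3 n
    rw [one_mul, abs_of_nonneg (hα0 n)] at h1
    calc ε * α n ≤ 1 * α n := mul_le_mul_of_nonneg_right hε1 (hα0 n)
      _ ≤ _ := by rw [one_mul]; exact h1
  have hμ1 : ε * μ n ≤ (Mn 8 n : ℝ) ^ 3 := by
    have h1 := hG.m3 n
    rw [one_mul, abs_of_nonneg (hμ0 n)] at h1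
    calc ε * μ n ≤ 1 * μ n := mul_le_mul_of_nonneg_right hε1 (hμ0 n)
      _ ≤ _ := by rw [one_mul]; exact h1
  have h1 : ε * α n * y ^ 2 * |xp G ε T u 0 (n + 1) t| ≤ (Mn 8 n : ℝ) ^ 3 * y ^ 2 * E := by
    apply mul_le_mul _ (hxE 0 (n + 1) t ht) (abs_nonneg _) (by positivity)
    exact mul_le_mul_of_nonneg_right hα1 (sq_nonneg _)
  have h2 : ε * μ n * y ^ 2 * |xp G ε T u 1 (n + 1) t| ≤ (Mn 8 n : ℝ) ^ 3 * y ^ 2 * E := by
    apply mul_le_mul _ (hxE 1 (n + 1) t ht) (abs_nonneg _) (by positivity)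
    exact mul_le_mul_of_nonneg_right hμ1 (sq_nonneg _)
  have h3 : (Mn 8 n : ℝ) ^ 3 * y ^ 2 * (Mn 8 n : ℝ) ≤ (768 * C / ε) ^ 2 := by
    refine le_trans ?_ hysq
    have : (Mn 8 n : ℝ) ^ 3 * y ^ 2 * (Mn 8 n : ℝ) = y ^ 2 * (Mn 8 n : ℝ) ^ 4 := by ring
    rw [this]
    exact mul_le_mul_of_nonneg_left (pow_le_pow_right₀ hM1 (by norm_num)) (sq_nonneg _)
  have h4 : (Mn 8 n : ℝ) ^ 3 * y ^ 2 * E * (Mn 8 n : ℝ) ≤ (768 * C / ε) ^ 2 * E := by
    have := mul_le_mul_of_nonneg_right h3 hE0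
    linarith
  have h5 : D ≤ η * Mn 8 n := by
    rw [div_lt_iff₀ hη] at hJ
    have : (J₁ : ℝ) * η ≤ Mn 8 n * η := mul_le_mul_of_nonneg_right (hnJ.trans (hA n)) hη.le
    linarith
  have h6 : ((Mn 8 n : ℝ) ^ 3 * y ^ 2 * E + (Mn 8 n : ℝ) ^ 3 * y ^ 2 * E) * Mn 8 n
      ≤ η * Mn 8 n := by
    rw [hD] at h5
    linarith
  have h7 := le_of_mul_le_mul_right h6 hM0
  exact (add_le_add h1 h2).trans h7

end Pool.Agent.N136.NSP
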