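import Pool.Agent.N977.P.Stm

/-!
Project NSP: from a solution to the system of the Fourier coefficients (packets), first part
(helper136, after helper977).
-/

set_option linter.unusedVariables false

open MeasureTheory Set Filter Topology
open scoped ContDiff ComplexConjugate

namespace Pool.Agent.N136.NSP

open H459R3.NS Pool.Agent.N977.Q Pool.Agent.N977.S Pool.Agent.N977.P
open Pool.Agent.N977.K (SolK cmp)

/-! ### finite sums -/

theorem tsum_g {g φ : K3 → ℝ} (hg : {k | g k ≠ 0}.Finite) (h : ∀ k, g k = 0 → φ k = 0) :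
    ∑' k, φ k = ∑ k ∈ hg.toFinset, φ k := by
  refine tsum_eq_sum fun k hk => h k ?_
  by_contra h1
  exact hk (hg.mem_toFinset.2 h1)

theorem am_eq {g : K3 → ℝ} (hg : {k | g k ≠ 0}.Finite) (v : V → V) :
    am g v = ∑ k ∈ hg.toFinset, g k * (fr (fun x => v x 2) k).re := by
  unfold am
  exact tsum_g hg fun k hk => by rw [hk, zero_mul]

theorem re_le_un (v : V → V) (k : K3) : |(fr (fun x => v x 2) k).re| ≤ un v k :=
  (Complex.abs_re_le_norm _).trans (fr_le_un v k 2)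

theorem am_le1 {g : K3 → ℝ} (hg : {k | g k ≠ 0}.Finite) (v : V → V) :
    |am g v| ≤ ∑' k, |g k| * un v k := by
  rw [am_eq hg, tsum_g hg (fun k hk => by rw [hk, abs_zero, zero_mul])]
  refine (Finset.abs_sum_le_sum_abs _ _).trans (Finset.sum_le_sum fun k _ => ?_)
  rw [abs_mul]
  exact mul_le_mul_of_nonneg_left (re_le_un v k) (abs_nonneg _)

theorem am_le2 {g : K3 → ℝ} (hg : {k | g k ≠ 0}.Finite) (h1 : ∑' k, g k ^ 2 = 1) {v : V → V}
    (hv : SPV v) : |am g v| ≤ √(EE 0 v) := by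
  have h2 : ∑ k ∈ hg.toFinset, g k ^ 2 = 1 := by
    rw [← h1]
    exact (tsum_g hg fun k hk => by rw [hk]; ring).symm
  apply Real.abs_le_sqrt
  rw [am_eq hg]
  have h3 := Finset.sum_mul_sq_le_sq_mul_sq hg.toFinset g (fun k => (fr (fun x => v x 2) k).re)
  rw [h2, one_mul] at h3
  refine h3.trans ?_
  have h4 := EE_summable hv 0
  have h5 := h4.sum_le_tsum hg.toFinset fun l _ =>
    mul_nonneg (pow_nonneg (len_nonneg l) _) (sq_nonneg _)
  refine le_trans (Finset.sum_le_sum fun k _ => ?_) h5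
  simp only [mul_zero, pow_zero, one_mul]
  rw [← sq_abs]
  exact pow_le_pow_left₀ (abs_nonneg _) (re_le_un v k) 2

/-! ### continuity -/

section cont

variable {ν T T₂ : ℝ} {u : ℝ → V → V} {q : ℝ → V → ℝ} {K : (V → V) → (V → V) → V → V}

theorem am_cont (h : SolK ν T₂ K u q) {g : K3 → ℝ} (hg : {k | g k ≠ 0}.Finite) :
    ContinuousOn (fun t => am g (u t)) (Ico 0 T₂) := by
  simp_rw [am_eq hg]
  exact continuousOn_finsetSum _ fun k _ => continuousOn_const.mul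
    (re_cont (f := fun t x => u t x 2) (smooth_c h 2) k)

theorem un_contK (h : SolK ν T₂ K u q) (k : K3) :
    ContinuousOn (fun t => un (u t) k) (Ico 0 T₂) := by
  unfold un
  exact (continuousOn_finsetSum _ fun i _ =>
    fr_continuousOn (f := fun t x => u t x i) (smooth_c h i) k).sqrt

theorem un_decK (h : SolK ν T₂ K u q) (hT : T < T₂) :
    ∃ C, 0 ≤ C ∧ ∀ t ∈ Icc 0 T, ∀ k, (H459R3.NS.N k : ℝ) ^ 8 * un (u t) k ≤ C := by
  choose B hB0 hB using fun i => decay_time (f := fun t x => u t x i) (smooth_c h i)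
    (fun t ht j x => by simp only [h.per_u t ht j x]) hT 8
  refine ⟨∑ i, B i, Finset.sum_nonneg fun i _ => hB0 i, fun t ht k => ?_⟩
  calc (H459R3.NS.N k : ℝ) ^ 8 * un (u t) k
      ≤ (H459R3.NS.N k : ℝ) ^ 8 * ∑ i, ‖fr (fun x => u t x i) k‖ :=
        mul_le_mul_of_nonneg_left (un_le_sum _ _) (by positivity)
    _ = ∑ i, (H459R3.NS.N k : ℝ) ^ 8 * ‖fr (fun x => u t x i) k‖ := by rw [Finset.mul_sum]
    _ ≤ _ := Finset.sum_le_sum fun i _ => hB i t ht k

end cont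

/-! ### the Fourier coefficients without the packet part -/

section cw

variable {J : ℕ → ℕ} {G : Fin 2 → ℕ → K3 → ℝ}

theorem sumG (P : Pk J G) {e : Fin 2} {n : ℕ} {k : K3} (hk : G e n k ≠ 0) (X : Fin 2 → ℕ → ℝ) :
    ∑' m, (G 0 m k * X 0 m + G 1 m k * X 1 m) = G e n k * X e n := by
  have h0 : ∀ e' m, (e' ≠ e ∨ m ≠ n) → G e' m k = 0 := by
    intro e' m h
    by_contra h1
    obtain ⟨h2, h3⟩ := P.disj e' m e n k h1 hk
    rcases h with h | h
    · exact h h2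
    · exact h h3
  rw [tsum_eq_single n]
  · fin_cases e
    · have h1 := h0 1 n (Or.inl (by decide))
      simp only [Fin.zero_eta, Fin.mk_one] at *
      rw [h1]
      ring
    · have h1 := h0 0 n (Or.inl (by decide))
      simp only [Fin.zero_eta, Fin.mk_one] at *
      rw [h1]
      ring
  · intro m hm
    rw [h0 0 m (Or.inr hm), h0 1 m (Or.inr hm)]
    ring

theorem cwp_ne {v : V → V} {k : K3} {i : Fin 3} (hi : i ≠ 2) :
    cwp G v k i = fr (fun x => v x i) k := by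
  unfold cwp; rw [if_neg hi, sub_zero]

theorem cwp_zero {v : V → V} {k : K3} (hk : ∀ e n, G e n k = 0) (i : Fin 3) :
    cwp G v k i = fr (fun x => v x i) k := by
  unfold cwp
  simp [hk]

theorem cwp_two (P : Pk J G) (v : V → V) {e : Fin 2} {n : ℕ} {k : K3} (hk : G e n k ≠ 0) :
    cwp G v k 2 = fr (fun x => v x 2) k - ((G e n k * am (G e n) v : ℝ) : ℂ) := by
  unfold cwp
  rw [if_pos rfl, sumG P hk (fun e n => am (G e n) v)]

theorem bnp_nonneg (v : V → V) (k : K3) : 0 ≤ bnp G v k := Real.sqrt_nonneg _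

theorem bnp_sq (v : V → V) (k : K3) : bnp G v k ^ 2 = ∑ i, ‖cwp G v k i‖ ^ 2 :=
  Real.sq_sqrt (Finset.sum_nonneg fun _ _ => sq_nonneg _)

theorem bnp_zero {v : V → V} {k : K3} (hk : ∀ e n, G e n k = 0) : bnp G v k = un v k := by
  unfold bnp un
  simp_rw [cwp_zero hk]

theorem tri {z w : Fin 3 → ℂ} {r : ℝ} (h0 : ∀ i, i ≠ 2 → z i = w i) (h2 : ‖z 2 - w 2‖ ≤ r) :
    √(∑ i, ‖z i‖ ^ 2) ≤ √(∑ i, ‖w i‖ ^ 2) + r := by
  have hr : 0 ≤ r := (norm_nonneg _).trans h2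
  have h3 : ‖z 2‖ ≤ ‖w 2‖ + r := by
    have := norm_add_le (w 2) (z 2 - w 2)
    rw [add_sub_cancel] at this
    linarith
  rw [Fin.sum_univ_three, Fin.sum_univ_three, h0 0 (by decide), h0 1 (by decide)]
  set S := ‖w 0‖ ^ 2 + ‖w 1‖ ^ 2 with hS
  have hS0 : 0 ≤ S := by positivity
  have h4 : ‖w 2‖ ≤ √(S + ‖w 2‖ ^ 2) := Real.le_sqrt_of_sq_le (by linarith)
  have h5 : √(S + ‖w 2‖ ^ 2) ^ 2 = S + ‖w 2‖ ^ 2 := Real.sq_sqrt (by positivity)
  apply Real.sqrt_le_iff.2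
  refine ⟨by positivity, ?_⟩
  have h6 : ‖z 2‖ ^ 2 ≤ (‖w 2‖ + r) ^ 2 := pow_le_pow_left₀ (norm_nonneg _) h3 2
  have h7 : ‖w 2‖ * r ≤ √(S + ‖w 2‖ ^ 2) * r := mul_le_mul_of_nonneg_right h4 hr
  nlinarith

theorem un_bnp (P : Pk J G) (v : V → V) {e : Fin 2} {n : ℕ} {k : K3} (hk : G e n k ≠ 0) :
    un v k ≤ bnp G v k + |G e n k| * |am (G e n) v| ∧
      bnp G v k ≤ un v k + |G e n k| * |am (G e n) v| := by
  constructor
  · refine tri (fun i hi => (cwp_ne hi).symm) ?_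
    rw [cwp_two P v hk, sub_sub_cancel, Complex.norm_real, Real.norm_eq_abs, abs_mul]
  · refine tri (fun i hi => cwp_ne hi) ?_
    rw [cwp_two P v hk, sub_sub_cancel_left, norm_neg, Complex.norm_real, Real.norm_eq_abs, abs_mul]

variable {ν T T₂ : ℝ} {u : ℝ → V → V} {q : ℝ → V → ℝ} {K : (V → V) → (V → V) → V → V}

theorem bnp_cont (P : Pk J G) (h : SolK ν T₂ K u q) (k : K3) :
    ContinuousOn (fun t => bnp G (u t) k ^ 2) (Ico 0 T₂) := by
  by_cases hk : ∀ e n, G e n k = 0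
  · simp_rw [bnp_zero hk]
    exact (un_contK h k).pow 2
  · push Not at hk
    obtain ⟨e, n, hk⟩ := hk
    simp_rw [bnp_sq]
    refine continuousOn_finsetSum _ fun i _ => ?_
    by_cases hi : i = 2
    · subst hi
      have e1 : (fun t => ‖cwp G (u t) k 2‖ ^ 2) = fun t =>
          ((fr (fun x => u t x 2) k).re - G e n k * am (G e n) (u t)) ^ 2 +
            (fr (fun x => u t x 2) k).im ^ 2 := by
        funext t
        rw [cwp_two P (u t) hk, Complex.sq_norm, Complex.normSq_apply, Complex.sub_re,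
          Complex.sub_im, Complex.ofReal_re, Complex.ofReal_im]
        ring
      rw [e1]
      exact (((re_cont (f := fun t x => u t x 2) (smooth_c h 2) k).sub
        (continuousOn_const.mul (am_cont h (P.fin e n)))).pow 2).add
        ((im_cont (f := fun t x => u t x 2) (smooth_c h 2) k).pow 2)
    · simp_rw [cwp_ne hi]
      exact fr_continuousOn (f := fun t x => u t x i) (smooth_c h i) k

end cw

/-! ### frequencies of the packets -/

section freq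

variable {J : ℕ → ℕ} {G : Fin 2 → ℕ → K3 → ℝ}

theorem qq_sq (n : ℕ) : len (qq 0 n) ^ 2 = 4 * (Mn 8 n : ℝ) ^ 2 ∧
    len (qq 1 n) ^ 2 = 5 * (Mn 8 n : ℝ) ^ 2 := by
  have h0 : qq 0 n = (Mn 8 n : ℤ) • ev 0 := rfl
  have h1 : qq 1 n = (Mn 8 n : ℤ) • ev 2 := rfl
  rw [h0, h1, len_sq_ev, len_sq_ev, len_ev_sq.1, len_ev_sq.2]
  exact ⟨rfl, rfl⟩

theorem near' (P : Pk J G) {e : Fin 2} {n : ℕ} {k : K3} (hk : G e n k ≠ 0) :
    |len k ^ 2 - len (qq e n) ^ 2| ≤ 7 / 1000 * (Mn 8 n : ℝ) ^ 2 := by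
  refine (P.near e n k hk).trans ?_
  have h1 := P.J2 n
  have hM : (0 : ℝ) ≤ Mn 8 n := Nat.cast_nonneg _
  have h2 := mul_le_mul_of_nonneg_left h1 hM
  nlinarith

theorem dd_near (P : Pk J G) {c : ℝ} (hc : 0 ≤ c) (e : Fin 2) (n : ℕ) :
    |c * (∑' k, G e n k ^ 2 * len k ^ 2) - c * len (qq e n) ^ 2| ≤ c * (Mn 8 n : ℝ) ^ 2 / 100 := by
  have hf := P.fin e n
  have h1 : ∑' k, G e n k ^ 2 * len k ^ 2 = ∑ k ∈ hf.toFinset, G e n k ^ 2 * len k ^ 2 :=
    tsum_g hf fun k hk => by rw [hk]; ring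
  have h2 : ∑ k ∈ hf.toFinset, G e n k ^ 2 = 1 := by
    rw [← P.sq e n]
    exact (tsum_g hf fun k hk => by rw [hk]; ring).symm
  have h3 : (∑' k, G e n k ^ 2 * len k ^ 2) - len (qq e n) ^ 2 =
      ∑ k ∈ hf.toFinset, G e n k ^ 2 * (len k ^ 2 - len (qq e n) ^ 2) := by
    rw [h1]
    simp_rw [mul_sub]
    rw [Finset.sum_sub_distrib, ← Finset.sum_mul, h2, one_mul]
  have h4 : |(∑' k, G e n k ^ 2 * len k ^ 2) - len (qq e n) ^ 2| ≤ 7 / 1000 * (Mn 8 n : ℝ) ^ 2 := by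
    rw [h3]
    refine (Finset.abs_sum_le_sum_abs _ _).trans ?_
    calc ∑ k ∈ hf.toFinset, |G e n k ^ 2 * (len k ^ 2 - len (qq e n) ^ 2)|
        ≤ ∑ k ∈ hf.toFinset, G e n k ^ 2 * (7 / 1000 * (Mn 8 n : ℝ) ^ 2) := by
          refine Finset.sum_le_sum fun k hk => ?_
          rw [abs_mul, abs_of_nonneg (sq_nonneg _)]
          exact mul_le_mul_of_nonneg_left (near' P (hf.mem_toFinset.1 hk)) (sq_nonneg _)
      _ = _ := by rw [← Finset.sum_mul, h2, one_mul]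
  rw [← mul_sub, abs_mul, abs_of_nonneg hc]
  have h5 := mul_le_mul_of_nonneg_left h4 hc
  have h6 : 0 ≤ c * (Mn 8 n : ℝ) ^ 2 := by positivity
  linarith

theorem len_ge (P : Pk J G) {n : ℕ} {k : K3} (hk : G 1 n k ≠ 0) : (Mn 8 n : ℝ) ≤ len k := by
  have h1 := (abs_le.1 (near' P hk)).1
  rw [(qq_sq n).2] at h1
  have hM : (0 : ℝ) ≤ Mn 8 n := Nat.cast_nonneg _
  apply le_of_sq_le_sq _ (len_nonneg k)
  nlinarith [sq_nonneg (Mn 8 n : ℝ)]
where
  le_of_sq_le_sq {a b : ℝ} (h : a ^ 2 ≤ b ^ 2) (hb : 0 ≤ b) : a ≤ b :=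
    (abs_le_of_sq_le_sq' h hb).2

end freq

end Pool.Agent.N136.NSP
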